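import Pool.Agent.N563.LSP.Stm

set_option autoImplicit false

/-! # The Hardy-Littlewood-Paley inequality on the line, `1 < q < 2` -/

open MeasureTheory Set
open scoped ENNReal

namespace Pool.Agent.N43.LSP

open Pool.Agent.TH280.LS

/-- the weight `|ξ|^(-2)` -/
noncomputable def wt (ξ : ℝ) : ℝ≥0∞ := ENNReal.ofReal (|ξ| ^ (-2 : ℝ))

lemma wt_meas : Measurable wt := by
  unfold wt
  exact ENNReal.measurable_ofReal.comp ((measurable_id.abs).pow_const _)

lemma tail_Ioi {c : ℝ} (hc : 0 < c) : ∫⁻ ξ in Ioi c, wt ξ = ENNReal.ofReal (1 / c) := by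
  have h1 : ∫⁻ ξ in Ioi c, wt ξ = ∫⁻ ξ in Ioi c, ENNReal.ofReal (ξ ^ (-2 : ℝ)) := by
    refine setLIntegral_congr_fun measurableSet_Ioi fun ξ hξ => ?_
    have hξ0 : 0 < ξ := hc.trans hξ
    simp only [wt, abs_of_pos hξ0]
  rw [h1, ← ofReal_integral_eq_lintegral_ofReal
    (integrableOn_Ioi_rpow_of_lt (by norm_num) hc)]
  · rw [integral_Ioi_rpow_of_lt (by norm_num) hc]
    congr 1
    have e : (-2 : ℝ) + 1 = -1 := by norm_num
    rw [e, Real.rpow_neg_one]
    field_simp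
  · filter_upwards [ae_restrict_mem measurableSet_Ioi] with ξ hξ
    exact Real.rpow_nonneg (hc.trans hξ).le _

lemma tail {c : ℝ} (hc : 0 < c) : ∫⁻ ξ in {ξ : ℝ | c < |ξ|}, wt ξ ≤ ENNReal.ofReal (2 / c) := by
  have h1 : {ξ : ℝ | c < |ξ|} ⊆ Ioi c ∪ (fun x : ℝ => -x) ⁻¹' Ioi c := by
    intro ξ hξ
    have hξ' : c < |ξ| := hξ
    rcases lt_abs.1 hξ' with h | h
    · exact Or.inl h
    · exact Or.inr h
  have h2 : ∫⁻ ξ in (fun x : ℝ => -x) ⁻¹' Ioi c, wt ξ = ∫⁻ ξ in Ioi c, wt ξ := by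
    have h3 := (Measure.measurePreserving_neg (volume : Measure ℝ)).setLIntegral_comp_preimage_emb
      (MeasurableEquiv.neg ℝ).measurableEmbedding wt (Ioi c)
    rw [← h3]
    refine lintegral_congr fun ξ => ?_
    unfold wt
    rw [abs_neg]
  calc ∫⁻ ξ in {ξ : ℝ | c < |ξ|}, wt ξ
      ≤ ∫⁻ ξ in Ioi c ∪ (fun x : ℝ => -x) ⁻¹' Ioi c, wt ξ := lintegral_mono_set h1
    _ ≤ (∫⁻ ξ in Ioi c, wt ξ) + ∫⁻ ξ in (fun x : ℝ => -x) ⁻¹' Ioi c, wt ξ :=
        lintegral_union_le _ _ _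
    _ = ENNReal.ofReal (2 / c) := by
        rw [h2, tail_Ioi hc, ← ENNReal.ofReal_add (by positivity) (by positivity)]
        congr 1
        ring

/-- the part of large values -/
lemma partA {g : ℝ → ℂ} {l : ℝ} (hl : 0 < l) :
    ∫⁻ ξ in {ξ : ℝ | l / 2 < |ξ| * ‖ft g ξ‖}, wt ξ ≤ ENNReal.ofReal (4 / l * ∫ x, ‖g x‖) := by
  have hN0 : 0 ≤ ∫ x, ‖g x‖ := integral_nonneg fun x => norm_nonneg _
  rcases hN0.eq_or_lt with h0 | hN
  · have h1 : {ξ : ℝ | l / 2 < |ξ| * ‖ft g ξ‖} = ∅ := by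
      rw [Set.eq_empty_iff_forall_notMem]
      intro ξ hξ
      have h2 : ‖ft g ξ‖ ≤ 0 := by rw [h0]; exact norm_ft_le g ξ
      have h3 : ‖ft g ξ‖ = 0 := le_antisymm h2 (norm_nonneg _)
      have h4 : l / 2 < |ξ| * ‖ft g ξ‖ := hξ
      rw [h3, mul_zero] at h4
      linarith
    rw [h1]
    simp
  · have h1 : {ξ : ℝ | l / 2 < |ξ| * ‖ft g ξ‖} ⊆ {ξ : ℝ | l / (2 * ∫ x, ‖g x‖) < |ξ|} := by
      intro ξ hξ
      have h4 : l / 2 < |ξ| * ‖ft g ξ‖ := hξ
      have h5 : |ξ| * ‖ft g ξ‖ ≤ |ξ| * ∫ x, ‖g x‖ :=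
        mul_le_mul_of_nonneg_left (norm_ft_le g ξ) (abs_nonneg _)
      change l / (2 * ∫ x, ‖g x‖) < |ξ|
      rw [div_lt_iff₀ (by positivity)]
      linarith
    refine (lintegral_mono_set h1).trans ((tail (by positivity)).trans (le_of_eq ?_))
    congr 1
    field_simp
    ring

/-- the part of small values -/
lemma partB {g : ℝ → ℂ} (hg : Integrable g) (hg2 : MemLp g 2) {l : ℝ} (hl : 0 < l) :
    ∫⁻ ξ in {ξ : ℝ | l / 2 < |ξ| * ‖ft g ξ‖}, wt ξ ≤
      ENNReal.ofReal (4 / l ^ 2) * ∫⁻ x, ‖g x‖ₑ ^ 2 := by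
  have hm : MeasurableSet {ξ : ℝ | l / 2 < |ξ| * ‖ft g ξ‖} :=
    measurableSet_lt measurable_const
      ((continuous_abs.mul (continuous_ft hg).norm).measurable)
  rw [← ft_planch g hg hg2, ← lintegral_const_mul]
  · refine (setLIntegral_mono' hm fun ξ hξ => ?_).trans (setLIntegral_le_lintegral _ _)
    have h4 : l / 2 < |ξ| * ‖ft g ξ‖ := hξ
    have hξ0 : 0 < |ξ| := by
      rcases (abs_nonneg ξ).eq_or_lt with h | h
      · rw [← h, zero_mul] at h4; linarith
      · exact h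
    rw [← ofReal_norm, ← ENNReal.ofReal_pow (norm_nonneg _),
      ← ENNReal.ofReal_mul (by positivity)]
    unfold wt
    apply ENNReal.ofReal_le_ofReal
    rw [Real.rpow_neg hξ0.le, Real.rpow_two, inv_le_iff_one_le_mul₀ (by positivity)]
    have h5 : (l / 2) ^ 2 ≤ (|ξ| * ‖ft g ξ‖) ^ 2 := pow_le_pow_left₀ (by positivity) h4.le 2
    have h6 : 4 / l ^ 2 * ‖ft g ξ‖ ^ 2 * |ξ| ^ 2 = (|ξ| * ‖ft g ξ‖) ^ 2 / (l / 2) ^ 2 := by
      field_simp
      ring
    rw [h6, le_div_iff₀ (by positivity), one_mul]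
    exact h5
  · exact ((continuous_ft hg).measurable.enorm).pow_const 2

/-- the distribution function -/
lemma dist {g : ℝ → ℂ} (hm : Measurable g) (hg : Integrable g) {l : ℝ} (hl : 0 < l) :
    ∫⁻ ξ in {ξ : ℝ | l < |ξ| * ‖ft g ξ‖}, wt ξ ≤
      ENNReal.ofReal (4 / l) * (∫⁻ x, if l < ‖g x‖ then ‖g x‖ₑ else 0) +
      ENNReal.ofReal (4 / l ^ 2) * ∫⁻ x, if ‖g x‖ ≤ l then ‖g x‖ₑ ^ 2 else 0 := by
  have hS : MeasurableSet {x | l < ‖g x‖} := measurableSet_lt measurable_const hm.norm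
  obtain ⟨g1, hg1⟩ : ∃ g1 : ℝ → ℂ, g1 = {x | l < ‖g x‖}.indicator g := ⟨_, rfl⟩
  obtain ⟨g2, hg2⟩ : ∃ g2 : ℝ → ℂ, g2 = {x | l < ‖g x‖}ᶜ.indicator g := ⟨_, rfl⟩
  have i1 : Integrable g1 := by rw [hg1]; exact hg.indicator hS
  have i2 : Integrable g2 := by rw [hg2]; exact hg.indicator hS.compl
  have b2 : ∀ x, ‖g2 x‖ ≤ l := by
    intro x
    rw [hg2]
    by_cases h : x ∈ {x | l < ‖g x‖}
    · rw [Set.indicator_of_notMem (by simpa using h), norm_zero]
      exact hl.le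
    · rw [Set.indicator_of_mem h]
      exact not_lt.1 h
  have m2 : MemLp g2 2 := by
    rw [memLp_two_iff_integrable_sq_norm i2.1]
    refine (i2.norm.const_mul l).mono' (i2.1.norm.pow 2) (Filter.Eventually.of_forall fun x => ?_)
    rw [Real.norm_of_nonneg (by positivity), sq]
    exact mul_le_mul_of_nonneg_right (b2 x) (norm_nonneg _)
  have hft : ∀ ξ, ft g ξ = ft g1 ξ + ft g2 ξ := by
    intro ξ
    have j1 : Integrable fun x : ℝ => e (-(x * ξ)) * g1 x := by
      refine i1.bdd_mul (c := 1) ?_ ?_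
      · exact (continuous_e.comp (by fun_prop)).aestronglyMeasurable
      · exact Filter.Eventually.of_forall fun x => (norm_e _).le
    have j2 : Integrable fun x : ℝ => e (-(x * ξ)) * g2 x := by
      refine i2.bdd_mul (c := 1) ?_ ?_
      · exact (continuous_e.comp (by fun_prop)).aestronglyMeasurable
      · exact Filter.Eventually.of_forall fun x => (norm_e _).le
    unfold ft
    rw [← integral_add j1 j2]
    refine integral_congr_ae (Filter.Eventually.of_forall fun x => ?_)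
    have h3 : g x = g1 x + g2 x := by
      rw [hg1, hg2]
      exact (congrFun (Set.indicator_self_add_compl {x | l < ‖g x‖} g) x).symm
    simp only [h3, mul_add]
  have hsub : {ξ : ℝ | l < |ξ| * ‖ft g ξ‖} ⊆
      {ξ : ℝ | l / 2 < |ξ| * ‖ft g1 ξ‖} ∪ {ξ : ℝ | l / 2 < |ξ| * ‖ft g2 ξ‖} := by
    intro ξ hξ
    by_contra hcon
    rw [Set.mem_union, not_or] at hcon
    have c1 : |ξ| * ‖ft g1 ξ‖ ≤ l / 2 := not_lt.1 hcon.1
    have c2 : |ξ| * ‖ft g2 ξ‖ ≤ l / 2 := not_lt.1 hcon.2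
    have h4 : l < |ξ| * ‖ft g ξ‖ := hξ
    rw [hft] at h4
    have h5 : |ξ| * ‖ft g1 ξ + ft g2 ξ‖ ≤ |ξ| * (‖ft g1 ξ‖ + ‖ft g2 ξ‖) :=
      mul_le_mul_of_nonneg_left (norm_add_le _ _) (abs_nonneg _)
    rw [mul_add] at h5
    linarith
  refine (lintegral_mono_set hsub).trans ((lintegral_union_le _ _ _).trans (add_le_add ?_ ?_))
  · refine (partA hl).trans (le_of_eq ?_)
    rw [ENNReal.ofReal_mul (by positivity), ofReal_integral_norm_eq_lintegral_enorm i1]
    congr 1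
    refine lintegral_congr fun x => ?_
    rw [hg1]
    by_cases h : l < ‖g x‖
    · rw [if_pos h, Set.indicator_of_mem (by exact h)]
    · rw [if_neg h, Set.indicator_of_notMem (by exact h), enorm_zero]
  · refine (partB i2 m2 hl).trans (le_of_eq ?_)
    congr 1
    refine lintegral_congr fun x => ?_
    rw [hg2]
    by_cases h : ‖g x‖ ≤ l
    · rw [if_pos h, Set.indicator_of_mem (by exact not_lt.2 h)]
    · rw [if_neg h, Set.indicator_of_notMem (by simpa using h), enorm_zero]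
      simp

lemma int1 {q a : ℝ} (hq : 1 < q) (ha : 0 ≤ a) :
    ∫⁻ t in Ioo 0 a, ENNReal.ofReal (t ^ (q - 2)) ≤ ENNReal.ofReal (a ^ (q - 1) / (q - 1)) := by
  have hint : IntegrableOn (fun t : ℝ => t ^ (q - 2)) (Ioc 0 a) :=
    (intervalIntegrable_iff_integrableOn_Ioc_of_le ha).1
      (intervalIntegral.intervalIntegrable_rpow' (by linarith))
  calc ∫⁻ t in Ioo 0 a, ENNReal.ofReal (t ^ (q - 2))
      ≤ ∫⁻ t in Ioc 0 a, ENNReal.ofReal (t ^ (q - 2)) := lintegral_mono_set Ioo_subset_Ioc_self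
    _ = ENNReal.ofReal (∫ t in Ioc 0 a, t ^ (q - 2)) := by
        rw [ofReal_integral_eq_lintegral_ofReal hint]
        filter_upwards [ae_restrict_mem measurableSet_Ioc] with t ht
        exact Real.rpow_nonneg ht.1.le _
    _ = ENNReal.ofReal (a ^ (q - 1) / (q - 1)) := by
        rw [← intervalIntegral.integral_of_le ha, integral_rpow (Or.inl (by linarith))]
        have e : q - 2 + 1 = q - 1 := by ring
        rw [e, Real.zero_rpow (by linarith), sub_zero]

lemma int2 {q a : ℝ} (hq : q < 2) (ha : 0 < a) :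
    ∫⁻ t in Ici a, ENNReal.ofReal (t ^ (q - 3)) ≤ ENNReal.ofReal (a ^ (q - 2) / (2 - q)) := by
  rw [setLIntegral_congr Ioi_ae_eq_Ici.symm, ← ofReal_integral_eq_lintegral_ofReal
    (integrableOn_Ioi_rpow_of_lt (by linarith) ha)]
  · rw [integral_Ioi_rpow_of_lt (by linarith) ha]
    apply le_of_eq
    congr 1
    have e : q - 3 + 1 = -(2 - q) := by ring
    have e2 : q - 2 = -(2 - q) := by ring
    rw [e, e2, div_neg, neg_div, neg_neg]
  · filter_upwards [ae_restrict_mem measurableSet_Ioi] with ξ hξ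
    exact Real.rpow_nonneg (ha.trans hξ).le _

lemma inner1 {q : ℝ} (hq : 1 < q) (z : ℂ) :
    ∫⁻ t in Ioi (0 : ℝ), (if t < ‖z‖ then ENNReal.ofReal (4 * t ^ (q - 2)) * ‖z‖ₑ else 0) ≤
      ENNReal.ofReal (4 / (q - 1)) * ‖z‖ₑ ^ q := by
  have hq1 : 0 < q - 1 := by linarith
  have h1 : ∫⁻ t in Ioi (0 : ℝ), (if t < ‖z‖ then ENNReal.ofReal (4 * t ^ (q - 2)) * ‖z‖ₑ else 0) =
      ∫⁻ t in Ioo 0 ‖z‖, ENNReal.ofReal (4 * t ^ (q - 2)) * ‖z‖ₑ := by
    have h2 : ∀ t : ℝ, (if t < ‖z‖ then ENNReal.ofReal (4 * t ^ (q - 2)) * ‖z‖ₑ else 0) =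
        (Iio ‖z‖).indicator (fun t => ENNReal.ofReal (4 * t ^ (q - 2)) * ‖z‖ₑ) t := by
      intro t
      by_cases h : t < ‖z‖
      · rw [if_pos h, Set.indicator_of_mem (by exact h)]
      · rw [if_neg h, Set.indicator_of_notMem (by exact h)]
    simp only [h2]
    rw [lintegral_indicator measurableSet_Iio, Measure.restrict_restrict measurableSet_Iio]
    congr 2
    ext t
    simp only [mem_inter_iff, mem_Iio, mem_Ioi, mem_Ioo]
    tauto
  rw [h1]
  have h3 : ∀ t : ℝ, ENNReal.ofReal (4 * t ^ (q - 2)) * ‖z‖ₑ =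
      (ENNReal.ofReal 4 * ‖z‖ₑ) * ENNReal.ofReal (t ^ (q - 2)) := by
    intro t
    rw [ENNReal.ofReal_mul (by norm_num)]
    ring
  simp only [h3]
  rw [lintegral_const_mul']
  · refine (mul_le_mul_right (int1 hq (norm_nonneg z)) _).trans (le_of_eq ?_)
    rw [← ofReal_norm, ← ENNReal.ofReal_mul (by norm_num),
      ← ENNReal.ofReal_mul (by positivity), ENNReal.ofReal_rpow_of_nonneg (norm_nonneg _)
        (by linarith), ← ENNReal.ofReal_mul (by positivity)]
    congr 1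
    have h4 : ‖z‖ ^ q = ‖z‖ * ‖z‖ ^ (q - 1) := by
      rcases (norm_nonneg z).eq_or_lt with h | h
      · rw [← h, zero_mul, Real.zero_rpow (by linarith)]
      · rw [← Real.rpow_one_add' h.le (by linarith)]
        congr 1
        ring
    rw [h4]
    ring
  · exact ENNReal.mul_ne_top ENNReal.ofReal_ne_top enorm_ne_top

lemma inner2 {q : ℝ} (hq : q < 2) (hq1 : 1 < q) (z : ℂ) :
    ∫⁻ t in Ioi (0 : ℝ), (if ‖z‖ ≤ t then ENNReal.ofReal (4 * t ^ (q - 3)) * ‖z‖ₑ ^ 2 else 0) ≤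
      ENNReal.ofReal (4 / (2 - q)) * ‖z‖ₑ ^ q := by
  have hq2 : 0 < 2 - q := by linarith
  rcases (norm_nonneg z).eq_or_lt with h0 | h0
  · have hz : z = 0 := norm_eq_zero.1 h0.symm
    subst hz
    simp
  have h1 : ∫⁻ t in Ioi (0 : ℝ),
      (if ‖z‖ ≤ t then ENNReal.ofReal (4 * t ^ (q - 3)) * ‖z‖ₑ ^ 2 else 0) =
      ∫⁻ t in Ici ‖z‖, ENNReal.ofReal (4 * t ^ (q - 3)) * ‖z‖ₑ ^ 2 := by
    have h2 : ∀ t : ℝ, (if ‖z‖ ≤ t then ENNReal.ofReal (4 * t ^ (q - 3)) * ‖z‖ₑ ^ 2 else 0) =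
        (Ici ‖z‖).indicator (fun t => ENNReal.ofReal (4 * t ^ (q - 3)) * ‖z‖ₑ ^ 2) t := by
      intro t
      by_cases h : ‖z‖ ≤ t
      · rw [if_pos h, Set.indicator_of_mem (by exact h)]
      · rw [if_neg h, Set.indicator_of_notMem (by exact h)]
    simp only [h2]
    rw [lintegral_indicator measurableSet_Ici, Measure.restrict_restrict measurableSet_Ici]
    congr 2
    ext t
    simp only [mem_inter_iff, mem_Ici, mem_Ioi, and_iff_left_iff_imp]
    intro ht
    linarith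
  rw [h1]
  have h3 : ∀ t : ℝ, ENNReal.ofReal (4 * t ^ (q - 3)) * ‖z‖ₑ ^ 2 =
      (ENNReal.ofReal 4 * ‖z‖ₑ ^ 2) * ENNReal.ofReal (t ^ (q - 3)) := by
    intro t
    rw [ENNReal.ofReal_mul (by norm_num)]
    ring
  simp only [h3]
  rw [lintegral_const_mul']
  · refine (mul_le_mul_right (int2 hq h0) _).trans (le_of_eq ?_)
    rw [← ofReal_norm, ← ENNReal.ofReal_pow (norm_nonneg _),
      ← ENNReal.ofReal_mul (by norm_num),
      ← ENNReal.ofReal_mul (by positivity), ENNReal.ofReal_rpow_of_nonneg (norm_nonneg _)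
        (by linarith), ← ENNReal.ofReal_mul (by positivity)]
    congr 1
    have h4 : ‖z‖ ^ q = ‖z‖ ^ 2 * ‖z‖ ^ (q - 2) := by
      rw [← Real.rpow_two, ← Real.rpow_add h0]
      congr 1
      ring
    rw [h4]
    ring
  · exact ENNReal.mul_ne_top ENNReal.ofReal_ne_top (by finiteness)

theorem main_meas {q : ℝ} (hq1 : 1 < q) (hq2 : q < 2) {g : ℝ → ℂ} (hm : Measurable g)
    (hg : Integrable g) :
    ∫⁻ ξ : ℝ, ENNReal.ofReal (|ξ| ^ (q - 2)) * ‖ft g ξ‖ₑ ^ q ≤
      ENNReal.ofReal (q * (4 / (q - 1) + 4 / (2 - q))) * ∫⁻ x : ℝ, ‖g x‖ₑ ^ q := by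
  have hq0 : 0 < q := by linarith
  have ha1 : 0 < q - 1 := by linarith
  have ha2 : 0 < 2 - q := by linarith
  obtain ⟨F, hF⟩ : ∃ F : ℝ → ℝ, F = fun ξ => |ξ| * ‖ft g ξ‖ := ⟨_, rfl⟩
  have hFc : Continuous F := by rw [hF]; exact continuous_abs.mul (continuous_ft hg).norm
  have hF0 : ∀ ξ, 0 ≤ F ξ := by intro ξ; rw [hF]; positivity
  -- the weighted integral
  have e1 : ∫⁻ ξ : ℝ, ENNReal.ofReal (|ξ| ^ (q - 2)) * ‖ft g ξ‖ₑ ^ q =
      ∫⁻ ξ, ENNReal.ofReal (F ξ ^ q) ∂(volume.withDensity wt) := by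
    have hfm : Measurable fun ξ => ENNReal.ofReal (F ξ ^ q) :=
      ENNReal.measurable_ofReal.comp (hFc.measurable.pow_const _)
    rw [lintegral_withDensity_eq_lintegral_mul _ wt_meas hfm]
    have hne : ∀ᵐ ξ : ℝ, ξ ≠ 0 := by
      rw [ae_iff]
      simp
    refine lintegral_congr_ae ?_
    filter_upwards [hne] with ξ hξ
    have hξ0 : 0 < |ξ| := abs_pos.2 hξ
    rw [Pi.mul_apply]
    unfold wt
    rw [← ofReal_norm, ENNReal.ofReal_rpow_of_nonneg (norm_nonneg _) hq0.le,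
      ← ENNReal.ofReal_mul (by positivity), ← ENNReal.ofReal_mul (by positivity)]
    congr 1
    rw [hF]
    simp only
    rw [Real.mul_rpow (abs_nonneg _) (norm_nonneg _), ← mul_assoc, ← Real.rpow_add hξ0]
    congr 2
    ring
  rw [e1, lintegral_rpow_eq_lintegral_meas_lt_mul _ (Filter.Eventually.of_forall hF0)
    hFc.measurable.aemeasurable hq0, ENNReal.ofReal_mul hq0.le, mul_assoc]
  refine mul_le_mul_right ?_ _
  -- the kernel
  obtain ⟨K, hK⟩ : ∃ K : ℝ → ℝ → ℝ≥0∞, K = fun t x =>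
      (if t < ‖g x‖ then ENNReal.ofReal (4 * t ^ (q - 2)) * ‖g x‖ₑ else 0) +
      (if ‖g x‖ ≤ t then ENNReal.ofReal (4 * t ^ (q - 3)) * ‖g x‖ₑ ^ 2 else 0) := ⟨_, rfl⟩
  have hKm : Measurable (Function.uncurry K) := by
    rw [hK]
    have hn : Measurable fun p : ℝ × ℝ => ‖g p.2‖ := hm.norm.comp measurable_snd
    have he : Measurable fun p : ℝ × ℝ => ‖g p.2‖ₑ := hm.enorm.comp measurable_snd
    refine Measurable.add (Measurable.ite (measurableSet_lt measurable_fst hn) ?_ measurable_const)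
      (Measurable.ite (measurableSet_le hn measurable_fst) ?_ measurable_const)
    · exact (ENNReal.measurable_ofReal.comp ((measurable_fst.pow_const _).const_mul _)).mul he
    · exact (ENNReal.measurable_ofReal.comp ((measurable_fst.pow_const _).const_mul _)).mul
        (he.pow_const 2)
  have hle : ∫⁻ t in Ioi (0 : ℝ), (volume.withDensity wt) {a | t < F a} *
      ENNReal.ofReal (t ^ (q - 1)) ≤ ∫⁻ t in Ioi (0 : ℝ), ∫⁻ x, K t x := by
    refine setLIntegral_mono' measurableSet_Ioi fun t ht => ?_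
    have ht0 : 0 < t := ht
    have hS : MeasurableSet {a | t < F a} := measurableSet_lt measurable_const hFc.measurable
    rw [withDensity_apply _ hS]
    have h1 := dist hm hg ht0
    have h2 : {a | t < F a} = {ξ : ℝ | t < |ξ| * ‖ft g ξ‖} := by rw [hF]
    rw [h2]
    refine (mul_le_mul_left h1 _).trans (le_of_eq ?_)
    rw [hK]
    simp only
    rw [lintegral_add_left]
    · rw [add_mul]
      congr 1
      · rw [mul_right_comm, ← ENNReal.ofReal_mul (by positivity), ← lintegral_const_mul']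
        · refine lintegral_congr fun x => ?_
          by_cases h : t < ‖g x‖
          · rw [if_pos h, if_pos h]
            congr 2
            have e3 : t ^ (q - 1) = t * t ^ (q - 2) := by
              rw [← Real.rpow_one_add' ht0.le (by linarith)]
              congr 1
              ring
            rw [e3]
            field_simp
          · rw [if_neg h, if_neg h, mul_zero]
        · exact ENNReal.ofReal_ne_top
      · rw [mul_right_comm, ← ENNReal.ofReal_mul (by positivity), ← lintegral_const_mul']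
        · refine lintegral_congr fun x => ?_
          by_cases h : ‖g x‖ ≤ t
          · rw [if_pos h, if_pos h]
            congr 2
            have e3 : t ^ (q - 1) = t ^ 2 * t ^ (q - 3) := by
              rw [← Real.rpow_two, ← Real.rpow_add ht0]
              congr 1
              ring
            rw [e3]
            field_simp
          · rw [if_neg h, if_neg h, mul_zero]
        · exact ENNReal.ofReal_ne_top
    · exact Measurable.ite (measurableSet_lt measurable_const hm.norm)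
        (hm.enorm.const_mul _) measurable_const
  refine hle.trans ?_
  rw [lintegral_lintegral_swap hKm.aemeasurable, ← lintegral_const_mul']
  · refine lintegral_mono fun x => ?_
    rw [hK]
    simp only
    rw [lintegral_add_left]
    · rw [ENNReal.ofReal_add (by positivity) (by positivity), add_mul]
      exact add_le_add (inner1 hq1 (g x)) (inner2 hq2 hq1 (g x))
    · exact Measurable.ite (measurableSet_lt measurable_id measurable_const)
        ((ENNReal.measurable_ofReal.comp ((measurable_id.pow_const _).const_mul _)).mul_const _)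
        measurable_const
  · exact ENNReal.ofReal_ne_top

theorem hlp_ : Pool.Agent.N563.LSP.S_HLP := by
  intro q hq1 hq2
  have ha1 : 0 < q - 1 := by linarith
  have ha2 : 0 < 2 - q := by linarith
  refine ⟨q * (4 / (q - 1) + 4 / (2 - q)), by positivity, fun g _ hg _ => ?_⟩
  obtain ⟨g', hg'⟩ : ∃ g' : ℝ → ℂ, g' = hg.1.mk g := ⟨_, rfl⟩
  have hm : Measurable g' := by rw [hg']; exact hg.1.stronglyMeasurable_mk.measurable
  have hae : g =ᵐ[volume] g' := by rw [hg']; exact hg.1.ae_eq_mk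
  have hi : Integrable g' := hg.congr hae
  have hft : ∀ ξ, ft g ξ = ft g' ξ := by
    intro ξ
    unfold ft
    refine integral_congr_ae ?_
    filter_upwards [hae] with x hx
    rw [hx]
  have h1 := main_meas hq1 hq2 hm hi
  have h2 : ∫⁻ x : ℝ, ‖g x‖ₑ ^ q = ∫⁻ x : ℝ, ‖g' x‖ₑ ^ q := by
    refine lintegral_congr_ae ?_
    filter_upwards [hae] with x hx
    rw [hx]
  rw [h2]
  simp only [hft]
  exact h1

end Pool.Agent.N43.LSP
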